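import Pool.Agent.Helper89.UB.Stmts

set_option autoImplicit false

open Finset

namespace Pool.Agent.Helper89.UB

theorem kb1_dg {n : ℕ} (E : Finset (Finset (Fin n))) (W : Finset (Fin n)) (u : Fin n)
    : dg E W u ≤ deg2 E u := by
  unfold dg deg2
  refine Finset.card_le_card_of_injOn (fun w => ({u, w} : Finset (Fin n))) ?_ ?_
  · intro w hw
    rw [mem_coe, mem_filter] at hw
    rw [mem_coe, mem_filter]
    refine ⟨hw.2.1, ?_, ?_⟩
    · exact card_pair (Ne.symm hw.2.2)
    · exact mem_insert_self _ _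
  · intro a ha b hb hab
    rw [mem_coe, mem_filter] at ha hb
    have h1 : a ∈ ({u, b} : Finset (Fin n)) := by
      rw [← (show ({u, a} : Finset (Fin n)) = {u, b} from hab)]
      exact mem_insert_of_mem (mem_singleton_self a)
    rw [mem_insert, mem_singleton] at h1
    rcases h1 with h1 | h1
    · exact absurd h1 ha.2.2
    · exact h1

theorem kb1_pow (Δ k : ℕ) (x : ℝ) (hx : 0 ≤ x) (hxD : x * Δ ≤ 1 / 100) (hk : k ≤ Δ) :
    (1 + 2 * x) ^ k ≤ 2 := by
  have h1 : (1 + 2 * x) ^ k ≤ (1 + 2 * x) ^ Δ := pow_le_pow_right₀ (by linarith) hk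
  have h2 : (1 + 2 * x) ^ Δ ≤ Real.exp (2 * x) ^ Δ := by
    apply pow_le_pow_left₀ (by linarith)
    have := Real.add_one_le_exp (2 * x)
    linarith
  have h3 : Real.exp (2 * x) ^ Δ = Real.exp (Δ * (2 * x)) := by
    rw [Real.exp_nat_mul]
  have h4 : Real.exp (Δ * (2 * x)) ≤ Real.exp (1 / 50) := by
    apply Real.exp_le_exp.2
    nlinarith
  have h5 : Real.exp (1 / 50) ≤ 2 := by
    have h6 : Real.exp (1 / 50) ≤ 1 / (1 - 1 / 50) := by
      apply Real.exp_bound_div_one_sub_of_interval <;> norm_num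
    refine le_trans h6 ?_
    norm_num
  rw [h3] at h2
  linarith

theorem st_KB1 (hETK : ST_ETK) (hETN : ST_ETN) : ST_KB1 := by
  intro n Δ E x hE hdeg hx hxD
  have hAl : Al E ∅ := by
    intro e he hs
    have h1 := hE e he
    rw [subset_empty.1 hs, card_empty] at h1
    omega
  suffices H : ∀ (k : ℕ) (v : Fin n) (U : Finset (Fin n)), U.card = k → v ∉ U →
      ∑ S ∈ U.powerset, |(kap E v S : ℝ)| * x ^ S.card ≤ (1 + 2 * x) ^ (dg E U v) by
    intro v U hv
    exact H U.card v U rfl hv
  intro k
  induction k using Nat.strong_induction_on with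
  | _ k ih =>
    intro v U hUk hv
    set N : Finset (Fin n) := univ.filter (fun u => ({v, u} : Finset (Fin n)) ∈ E ∧ u ≠ v) with hN
    have h1 : ∑ S ∈ U.powerset, |(kap E v S : ℝ)| * x ^ S.card =
        ∑ S ∈ U.powerset, |(eta E N S : ℝ)| * x ^ S.card := by
      apply sum_congr rfl
      intro S hS
      rw [mem_powerset] at hS
      rw [hETK n E hE v S (fun h => hv (hS h))]
    rw [h1]
    refine le_trans (hETN n E hAl x hx N U) ?_
    have h2 : dg E U v = (N ∩ U).card := by
      unfold dg
      congr 1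
      ext u
      simp only [hN, mem_filter, mem_inter, mem_univ, true_and]
      tauto
    rw [h2, ← prod_const]
    apply prod_le_prod
    · intro u _
      have : 0 ≤ ∑ S ∈ (U.erase u).powerset, |(kap E u S : ℝ)| * x ^ S.card := by
        apply sum_nonneg
        intro S _
        positivity
      positivity
    · intro u hu
      rw [mem_inter] at hu
      have h3 := ih (U.erase u).card
        (by rw [← hUk]; exact card_erase_lt_of_mem hu.2) u (U.erase u) rfl (notMem_erase u U)
      have h4 := kb1_pow Δ (dg E (U.erase u) u) x hx hxD (le_trans (kb1_dg E _ u) (hdeg u))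
      have h5 : x * ∑ S ∈ (U.erase u).powerset, |(kap E u S : ℝ)| * x ^ S.card ≤ x * 2 :=
        mul_le_mul_of_nonneg_left (le_trans h3 h4) hx
      linarith

end Pool.Agent.Helper89.UB
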