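import Pool.Agent.Helper89.UB.Stmts

set_option autoImplicit false

open Finset

namespace Pool.Agent.Helper89.UB

open scoped Classical in
theorem sub_card {n m : ℕ} (E : Finset (Finset (Fin n))) (U : Finset (Fin n)) (x : Fin n)
    (hx : x ∈ U) :
    ((OP E univ m).filter (fun c => ∃ i, U ⊆ c i)).card ≤ sur E (univ \ U.erase x) m := by
  unfold sur
  refine Finset.card_le_card_of_injOn (fun c => fun i => c i \ U.erase x) ?_ ?_
  · intro c hc
    rw [mem_coe, mem_filter] at hc
    obtain ⟨hc1, i0, hi0⟩ := hc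
    unfold OP at hc1
    rw [mem_filter] at hc1
    obtain ⟨-, h1, h2, h3, h4⟩ := hc1
    rw [mem_coe]
    unfold OP
    rw [mem_filter]
    refine ⟨mem_univ _, ?_, ?_, ?_, ?_⟩
    · intro i
      by_cases hi : i = i0
      · refine ⟨x, ?_⟩
        rw [mem_sdiff, hi]
        exact ⟨hi0 hx, fun h => (notMem_erase x U) h⟩
      · obtain ⟨y, hy⟩ := h1 i
        refine ⟨y, ?_⟩
        rw [mem_sdiff]
        refine ⟨hy, fun h => ?_⟩
        exact (disjoint_left.1 (h2 i i0 hi) hy) (hi0 (mem_of_mem_erase h))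
    · intro i j hij
      exact (h2 i j hij).mono sdiff_subset sdiff_subset
    · intro v
      constructor
      · intro hv
        obtain ⟨i, hi⟩ := (h3 v).1 (mem_univ v)
        exact ⟨i, mem_sdiff.2 ⟨hi, (mem_sdiff.1 hv).2⟩⟩
      · rintro ⟨i, hi⟩
        exact mem_sdiff.2 ⟨mem_univ _, (mem_sdiff.1 hi).2⟩
    · intro i e he hei
      exact h4 i e he (hei.trans sdiff_subset)
  · intro c hc d hd hcd
    rw [mem_coe, mem_filter] at hc hd
    obtain ⟨hc1, i0, hi0⟩ := hc
    obtain ⟨hd1, j0, hj0⟩ := hd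
    unfold OP at hc1 hd1
    rw [mem_filter] at hc1 hd1
    obtain ⟨-, -, h2, -, -⟩ := hc1
    obtain ⟨-, -, g2, -, -⟩ := hd1
    have hcd' : ∀ i, c i \ U.erase x = d i \ U.erase x := fun i => congrFun hcd i
    have hij : i0 = j0 := by
      by_contra hne
      have h5 : x ∈ c i0 \ U.erase x := mem_sdiff.2 ⟨hi0 hx, notMem_erase x U⟩
      rw [hcd'] at h5
      exact (disjoint_left.1 (g2 i0 j0 hne) (mem_sdiff.1 h5).1) (hj0 hx)
    subst hij
    have hsub : U.erase x ⊆ U := erase_subset _ _
    funext i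
    by_cases hi : i = i0
    · subst hi
      have e1 : c i = (c i \ U.erase x) ∪ U.erase x := by
        rw [sdiff_union_of_subset (hsub.trans hi0)]
      have e2 : d i = (d i \ U.erase x) ∪ U.erase x := by
        rw [sdiff_union_of_subset (hsub.trans hj0)]
      rw [e1, e2, hcd']
    · have e1 : c i \ U.erase x = c i := by
        apply sdiff_eq_self_of_disjoint
        exact (h2 i i0 hi).mono_right (hsub.trans hi0)
      have e2 : d i \ U.erase x = d i := by
        apply sdiff_eq_self_of_disjoint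
        exact (g2 i i0 hi).mono_right (hsub.trans hj0)
      rw [← e1, ← e2, hcd']

theorem st_SUB (hINS : ST_INS) : ST_SUB := by
  intro n D m E hI U hU
  obtain ⟨x, hx⟩ := hU
  have h1 := hINS n D m E hI (univ \ U.erase x) (U.erase x) sdiff_disjoint
  rw [sdiff_union_of_subset (subset_univ _), card_erase_of_mem hx] at h1
  exact le_trans (Nat.mul_le_mul_left _ (sub_card E U x hx)) h1

end Pool.Agent.Helper89.UB
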